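import Pool.Agent.R5.OH.Four

/-!
# A Sylvester-Gallai theorem for horocycles

`IsHorocycle H`: `H` is a horocycle of the upper half-plane model of the hyperbolic plane (a
horizontal line, or a circle tangent to the real axis without the point of tangency).
`ordinary P`: the set of horocycles with exactly two points of `P`.
`m n`: the least number of ordinary horocycles of a set of `n` points of the upper half-plane.
-/

namespace Pool.Agent.Results.MP_596974_co.OrdinaryHorocycles

open Pool.Agent.R5.OH

theorem result :
    (∀ n : ℕ, 2 ≤ n → 1 ≤ m n) ∧ m 3 = 3 ∧ m 4 = 3 ∧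
      (∀ n : ℕ, 3 ≤ n → m n ≤ ((n.choose 2 : ℕ) : ℕ∞)) := by
  refine ⟨one_le_m, le_antisymm ?_ three_le_m3, le_antisymm m4_upper three_le_m4, m_le_choose⟩
  have h := m_le_choose 3 le_rfl
  have e : Nat.choose 3 2 = 3 := by decide
  rw [e] at h
  exact h

end Pool.Agent.Results.MP_596974_co.OrdinaryHorocycles
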